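import Pool.Agent.R936.Cv.Main

/-!
# The generalised Hodge conjecture in coniveau one: factors of CM type

Let `X i`, `i ∈ I`, be a family (finite or infinite) of smooth projective complex varieties of CM type
(for instance of abelian varieties with complex multiplication) whose Hodge structures have a Hodge group
of dimension at most `R`, so a Mumford-Tate group of dimension at most `R + 1`. Let `Z` be an
**arbitrary** smooth projective variety.

*Theorem.* If for all products `P` of at most `R + 1` members of the family all sub-Hodge structures
of `H^i(Z × P)` without part of type `(i, 0)` or `(0, i)` vanish on a dense open subset of `Z × P`,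
for all `i`, then the same is true for all products `P` of members of the family.

For example, let `A` be an abelian variety of dimension `g` with complex multiplication. Then all the
varieties `Z × A ^ n` can be reduced to `n ≤ g + 1`; no conjecture for `Z` is assumed.

*Proof.* Let `V` be a sub-Hodge structure of `H^i(Z × P)` without part of type `(i, 0)` or `(0, i)`. Its
elements are linear combinations, over a splitting field `L`, of classes `z ⊗ w`, where `w` is a product
of eigenvectors (letters) of the members. For an embedding `σ` of `L` into `ℂ` such that the conjugate
`σ z` has a component of type `(0, q)`, the conjugate `σ w` is of type `(a, b)` with `a ≥ 1`, similarly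
for the second index. Choose a product `w'` of some of the letters of `w` which has the same property,
with as few letters as possible. Then for each letter `l` of `w'` there are an embedding and an index for
which the number `a ≥ 1` or `b ≥ 1` of `l` is positive and those of the other letters of `w'` vanish. So
the vectors of the types of the letters of `w'` are linearly independent, and there are at most `R + 1`
of them. The conjugates of the classes `z ⊗ w'` span a sub-Hodge structure of the cohomology of
`Z × P'`, where `P'` is a product of at most `R + 1` members, and it has no part of type `(j, 0)` or
`(0, j)`. So `z ⊗ w'`, and its multiple `z ⊗ w`, vanish on a dense open subset.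
-/

open CategoryTheory AlgebraicGeometry

universe u w

namespace Pool.Agent.Results.MP_1c689d_ag.FactorsOfCMType

open Pool.Agent.H914 Pool.Agent.Y121.AHS Pool.Agent.R940 Pool.Agent.R936.Hel2 Pool.Agent.R936.Cv

/-- **The generalised Hodge conjecture in coniveau one for `Z × P`**, where `Z` is an arbitrary variety
and `P` is a product of members of a family of varieties of CM type with Hodge group of dimension at
most `R`: the products `P` of at most `R + 1` members decide. -/
theorem result {k : Type u} [Field k] {𝒱 : VarClass k} {ops : CycleOps 𝒱} (T : HodgeTheory ops)
    (hpos : NonnegTypes T) (S : Subspaces T) (hS : IsSupport S) {I : Type w} (X : I → 𝒱.Obj)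
    (hX : ∀ i, IsCM T (X i)) (R : ℕ) (hR : HodgeGroupDimLe T X R) (Z : 𝒱.Obj)
    (h : ∀ i L, (i :: L).length ≤ R + 1 → ConiveauOne S (Z.prod (prodOf X i L))) :
    ∀ i L, ConiveauOne S (Z.prod (prodOf X i L)) :=
  cv_red hpos hS hX hR Z h

end Pool.Agent.Results.MP_1c689d_ag.FactorsOfCMType
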