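import Pool.Agent.R919.GC.Fin

/-!
# MP_1c689d_ag: the generalised Hodge conjecture in coniveau one for the products of an arbitrary variety
with all but few elliptic curves

Let `X` be an ARBITRARY smooth projective complex variety and `M = V o` its rational cohomology, a direct
sum of pure polarized Hodge structures, of dimension `b`; `deg o` gives the degrees of the elements of a
basis which is compatible with the grading. Let `E_j`, for `j ≠ o` in an arbitrary set of indices, be
elliptic curves without complex multiplication with `H^1(E_j) = V j` which are pairwise not isogenous.

For a family `f` of indices the tensor product of the `V (f x)` is a part of the cohomology of the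
product `Y = X^a × E_1^{b_1} × ... × E_r^{b_r}`. A sub-Hodge structure `U` of degree `i` without part of
type `(i, 0)` satisfies `NoForms V f deg i U`. The conjecture Q1, in the form of Grothendieck's
generalised Hodge conjecture in coniveau one, says that all classes of `U` vanish on a dense Zariski
open subset (for `U = H^i(Y)` this is Q1 for `Y`; if `Y'` is dominated by `Y`, for example a quotient of
`Y` by a finite group, and if `h^{i,0}(Y') = 0` then `U = H^i(Y')` gives Q1 for `Y'`).

The theorem: there is a set `S` of at most `b / 2` exceptional indices such that **if the conjecture is
true for all sub-Hodge structures of the cohomology of the powers `X^a` then it is true for all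
sub-Hodge structures of the cohomology of all products `X^a × E_1^{b_1} × ... × E_r^{b_r}` with
`j ∉ S`.** The set `S` does not depend on the classes which vanish on open subsets.

About these classes (`SupportSystem`: `all f` on the product, `of f` on `X^a`) only the following is
used: a product of a class on `X^a` which vanishes on a dense open subset with any class in the other
factors vanishes on a dense open subset; and so does the product of the class of a divisor on
`E_j × E_j` with any class in the other factors. (The class of the divisor is the alternating tensor of
`H^1(E_j) ⊗ H^1(E_j)`, `alt lab f x y` is a multiple of it. The other parts of the cohomology of `Y` contain a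
factor `H^2(E_j)`, and their classes vanish on dense open subsets, or only `H^0(E_j)`, and they
come from fewer factors.)

The proof: the Hodge Lie algebra of the product contains the Lie algebras `sl_2` of the `E_j`
with `j ∉ S`. So for a sub-Hodge structure `U` the elements of `U` which are multiples of a fixed power
tensor at the elliptic curves form a sub-Hodge structure of the cohomology of `X^a`, and it
contains all evaluations of `U` at power tensors. It has no part of type `(i', 0)`, because the power
tensor can be moved to the power of the form of type `(1, 0)`. Modulo the divisors a tensor is
given by its symmetrization, that is by these evaluations.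
-/

namespace Pool.Agent.Results.MP_1c689d_ag.FewExceptionalCurves

open Pool.Agent.R919.FE Pool.Agent.R919.GC

theorem result {J : Type} [DecidableEq J] {B : J → Type} [∀ j, Fintype (B j)]
    [∀ j, DecidableEq (B j)] (V : ∀ j, HodgeStructure (B j)) (o : J) (deg : ∀ j, B j → ℤ)
    (lab : ∀ j, B j → ℚ) (hcurve : ∀ j, j ≠ o → IsCurve (V j))
    (hdeg : ∀ j, j ≠ o → ∀ b, deg j b = 1) (hlab : IsLabel o lab)
    (hind : ∀ s t, s ≠ o → t ≠ o → s ≠ t → Independent (V s) (V t)) :
    ∃ S : Finset J, o ∉ S ∧ 2 * S.card ≤ Fintype.card (B o) ∧
      ∀ N : SupportSystem B o lab,
        (∀ (κ : Type) [Fintype κ] [DecidableEq κ] (f : κ → J) (i : ℤ)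
          (U : Submodule ℚ ((∀ x, B (f x)) → ℚ)), NoFormsOf V f o deg i U → U ≤ N.of f) →
        ∀ (κ : Type) [Fintype κ] [DecidableEq κ] (f : κ → J), (∀ x, f x ∉ S) → ∀ (i : ℤ)
          (U : Submodule ℚ ((∀ x, B (f x)) → ℚ)), NoForms V f deg i U → U ≤ N.all f :=
  main V o deg lab hcurve hdeg hlab hind

end Pool.Agent.Results.MP_1c689d_ag.FewExceptionalCurves
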