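import Pool.Agent.R914.K3N.Main

/-!
# Coniveau one for the powers of K3 surfaces with algebraic Kuga-Satake correspondence

Let `X` be a complex projective K3 surface with transcendental part `T` and totally real
endomorphism field `E` (for example `E = ℚ`) whose Kuga-Satake correspondence is algebraic. Then
`T ⊗ ℂ` is the orthogonal sum of the eigenspaces `T_σ` of `E`, of dimension at least three, and the
Hodge Lie algebra is the product of the `so(T_σ)`, by a theorem of Zarhin. Let `𝒜` be the system of
the complex combinations of algebraic classes on the powers of `X`, in the tensor powers of `T`, and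
let `𝒩` consist of the combinations of the classes which vanish on a dense Zariski open subset.

Let `W` be a rational sub-Hodge structure of `T ^ ⊗ m` without part of type `(2 m, 0)`, and hence
without part of type `(0, 2 m)`. Then the forms of `W ⊗ ℂ` are zero at the holomorphic two-form
`ω`, which is an isotropic vector of one `T_σ`, and by Galois conjugation they are zero at an
isotropic vector of each `T_σ`. The theorem says that all classes of `W` vanish on a dense Zariski
open subset of `X ^ m`. With the Künneth formula, all sub-Hodge structures of `H ^ i (X ^ n)` without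
part of type `(i, 0)` vanish on a dense Zariski open subset.
-/

universe u

namespace Pool.Agent.Results.MP_1c689d_ag.PowersOfK3

open Pool.Agent.R914.K3P Pool.Agent.R914.K3N

/-- If the Kuga-Satake correspondence is algebraic for `𝒜`, with supports in `𝒩`, then a space of
forms which is stable under the Lie algebras `so(V i)` and zero at an isotropic vector of each
`V i` is contained in `𝒩`. -/
theorem result {K : Type u} [Field K] [CharZero K] [IsAlgClosed K] {B ι M : Type} [Fintype B]
    [DecidableEq B] [Fintype ι] [DecidableEq ι] [Nonempty ι] [Fintype M] [DecidableEq M]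
    [Nonempty M] (κ : B → ι) (h3 : ∀ i, 3 ≤ (Finset.univ.filter fun b => κ b = i).card)
    (𝒜 : System K B) (𝒩 : SupportSystem 𝒜) (L : B → Matrix M M K) (hL : IsClifford L)
    (hA : IsAlgebraicKugaSatake κ 𝒜 L) (hN : IsSupportedKugaSatake 𝒩 L)
    (S : Type) [Fintype S] [DecidableEq S] (W : Submodule K (Form K B S)) (hW : IsStable κ W)
    (h0 : ∀ i, ∃ ω, IsIsotropic κ i ω ∧ ∀ t ∈ W, value t ω = 0) : W ≤ 𝒩.N S :=
  main h3 𝒜 𝒩 hL hA hN W hW h0

end Pool.Agent.Results.MP_1c689d_ag.PowersOfK3
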