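import Pool.Agent.R914.K3S.Main

/-!
# For coniveau one on the powers of a K3 surface it suffices to treat the square

Let `X` be a complex projective K3 surface with transcendental part `T`; let `E` be the totally real
field or CM field of its Hodge endomorphisms. By a theorem of Zarhin the Hodge Lie algebra of `T`,
with complex coefficients, is the product of the orthogonal Lie algebras of the eigenspaces `T_σ`
of `E` (of dimension at least three by a lemma of van Geemen) if `E` is totally real, and the product
of the `gl(T_σ)` over the pairs of complex conjugate embeddings of `E` if `E` is a CM field. The class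
of a holomorphic two-form lies in one `T_σ` and is isotropic, and each `T_σ` contains one of its
Galois conjugates, `ω σ`.

A rational sub-Hodge structure `W` of `T ^ ⊗ m` has no part of type `(2 m, 0)` if and only if the
forms in `W ⊗ ℂ` are zero at all vectors `ω σ`. The theorem says: if the sub-Hodge structures of
`T ⊗ T` without part of type `(4, 0)` vanish on a dense Zariski open subset of `X × X`, then for all
`m` the sub-Hodge structures of `T ^ ⊗ m` without part of type `(2 m, 0)` vanish on a dense Zariski
open subset of `X ^ m`.
-/

universe u

namespace Pool.Agent.Results.MP_1c689d_ag.SquaresSuffice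

open Pool.Agent.R914.K3P Pool.Agent.R914.K3S

/-- Coniveau one for two variables implies coniveau one for any finite set of variables. -/
theorem result {K : Type u} [Field K] [CharZero K] [IsAlgClosed K] {B ι : Type} [Fintype B]
    [DecidableEq B] [DecidableEq ι] [Nonempty ι] (κ : B → ι) (bar : B → B) (hB : IsBlocks κ bar)
    (ω : ι → B → K) (hω : ∀ i, IsIsotropicBar κ bar i (ω i)) (𝒩 : Supports K B)
    (h : HasConiveauOne κ bar ω 𝒩 Bool) :
    ∀ (S : Type) [Fintype S] [DecidableEq S], HasConiveauOne κ bar ω 𝒩 S :=
  fun _ _ _ => main hB hω 𝒩 h

end Pool.Agent.Results.MP_1c689d_ag.SquaresSuffice
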